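import Pool.Agent.Helper17.Rg.Goals
import Pool.Agent.Helper66.Rig.Obs2

set_option autoImplicit false

namespace Pool.Agent.Helper8.Rg

open Pool.Agent.Helper17.Rg Pool.Agent.Helper66.Rig

theorem cosBad : CosBad := by
  intro x N L
  set c : ℕ → ℝ := fun k => 1 - Real.cos (2 * Real.pi * ((2 ^ k + 3 ^ k) * x)) with hc
  have hc0 : ∀ k, 0 ≤ c k := fun k => by
    have := Real.cos_le_one (2 * Real.pi * ((2 ^ k + 3 ^ k) * x))
    simp only [hc]
    linarith
  have hbad : ∀ k, Bad x k → 1 / 128 ≤ c k + c (k + 1) := by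
    intro k hk
    have h1 := one_sub_cos_ge (((2 : ℝ) ^ k + 3 ^ k) * x)
    have h2 := one_sub_cos_ge (((2 : ℝ) ^ (k + 1) + 3 ^ (k + 1)) * x)
    set a := |((2 : ℝ) ^ k + 3 ^ k) * x - round (((2 : ℝ) ^ k + 3 ^ k) * x)| with ha
    set b := |((2 : ℝ) ^ (k + 1) + 3 ^ (k + 1)) * x
      - round (((2 : ℝ) ^ (k + 1) + 3 ^ (k + 1)) * x)| with hb
    rw [← sq_abs] at h1 h2
    have ha0 : 0 ≤ a := abs_nonneg _
    have hb0 : 0 ≤ b := abs_nonneg _
    have h3 : 1 / 8 ≤ 3 * a + b := by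
      rcases hk with hk | hk
      · have h4 := round_le ((2 : ℝ) ^ k * x)
          (3 * round (((2 : ℝ) ^ k + 3 ^ k) * x)
            - round (((2 : ℝ) ^ (k + 1) + 3 ^ (k + 1)) * x))
        have h5 : |(2 : ℝ) ^ k * x - ((3 * round (((2 : ℝ) ^ k + 3 ^ k) * x)
            - round (((2 : ℝ) ^ (k + 1) + 3 ^ (k + 1)) * x) : ℤ) : ℝ)| ≤ 3 * a + b := by
          have h6 : (2 : ℝ) ^ k * x - ((3 * round (((2 : ℝ) ^ k + 3 ^ k) * x)
            - round (((2 : ℝ) ^ (k + 1) + 3 ^ (k + 1)) * x) : ℤ) : ℝ)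
            = 3 * (((2 : ℝ) ^ k + 3 ^ k) * x - round (((2 : ℝ) ^ k + 3 ^ k) * x))
              - (((2 : ℝ) ^ (k + 1) + 3 ^ (k + 1)) * x
                - round (((2 : ℝ) ^ (k + 1) + 3 ^ (k + 1)) * x)) := by
            push_cast
            ring
          rw [h6]
          refine (abs_sub _ _).trans ?_
          rw [abs_mul, abs_of_pos (by norm_num : (0 : ℝ) < 3)]
        unfold di at hk
        linarith
      · have h4 := round_le ((3 : ℝ) ^ k * x)
          (round (((2 : ℝ) ^ (k + 1) + 3 ^ (k + 1)) * x)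
            - 2 * round (((2 : ℝ) ^ k + 3 ^ k) * x))
        have h5 : |(3 : ℝ) ^ k * x - ((round (((2 : ℝ) ^ (k + 1) + 3 ^ (k + 1)) * x)
            - 2 * round (((2 : ℝ) ^ k + 3 ^ k) * x) : ℤ) : ℝ)| ≤ b + 2 * a := by
          have h6 : (3 : ℝ) ^ k * x - ((round (((2 : ℝ) ^ (k + 1) + 3 ^ (k + 1)) * x)
            - 2 * round (((2 : ℝ) ^ k + 3 ^ k) * x) : ℤ) : ℝ)
            = (((2 : ℝ) ^ (k + 1) + 3 ^ (k + 1)) * x
                - round (((2 : ℝ) ^ (k + 1) + 3 ^ (k + 1)) * x))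
              - 2 * (((2 : ℝ) ^ k + 3 ^ k) * x - round (((2 : ℝ) ^ k + 3 ^ k) * x)) := by
            push_cast
            ring
          rw [h6]
          refine (abs_sub _ _).trans ?_
          rw [abs_mul, abs_of_pos (by norm_num : (0 : ℝ) < 2)]
        unfold di at hk
        linarith
    have h7 : (1 / 8 : ℝ) ^ 2 ≤ (3 * a + b) ^ 2 := pow_le_pow_left₀ (by norm_num) h3 2
    have h8 : (3 * a + b) ^ 2 ≤ 10 * (a ^ 2 + b ^ 2) := by nlinarith [sq_nonneg (a - 3 * b)]
    simp only [hc]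
    nlinarith
  have h1 : (nb x N L : ℝ) * (1 / 128) ≤ ∑ k ∈ Finset.Icc N L, (c k + c (k + 1)) := by
    classical
    have h2 : ∑ k ∈ (Finset.Icc N L).filter (fun k => Bad x k), (c k + c (k + 1))
        ≤ ∑ k ∈ Finset.Icc N L, (c k + c (k + 1)) :=
      Finset.sum_le_sum_of_subset_of_nonneg (Finset.filter_subset _ _)
        (fun k _ _ => add_nonneg (hc0 k) (hc0 (k + 1)))
    have h3 : (nb x N L : ℝ) * (1 / 128)
        ≤ ∑ k ∈ (Finset.Icc N L).filter (fun k => Bad x k), (c k + c (k + 1)) := by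
      have h4 := Finset.card_nsmul_le_sum ((Finset.Icc N L).filter (fun k => Bad x k))
        (fun k => c k + c (k + 1)) (1 / 128) (fun k hk => hbad k (Finset.mem_filter.1 hk).2)
      rw [nsmul_eq_mul] at h4
      have h5 : nb x N L = ((Finset.Icc N L).filter (fun k => Bad x k)).card := by
        unfold nb
        congr
      rw [h5]
      exact h4
    exact h3.trans h2
  have h2 : ∑ k ∈ Finset.Icc N L, (c k + c (k + 1)) ≤ 2 * ∑ k ∈ Finset.Icc N (L + 1), c k := by
    rw [Finset.sum_add_distrib, two_mul]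
    refine add_le_add ?_ ?_
    · exact Finset.sum_le_sum_of_subset_of_nonneg
        (Finset.Icc_subset_Icc_right (Nat.le_succ L)) (fun k _ _ => hc0 k)
    · have h3 : ∑ k ∈ Finset.Icc N L, c (k + 1)
          = ∑ k ∈ (Finset.Icc N L).image (fun k => k + 1), c k := by
        rw [Finset.sum_image]
        intro a _ b _ hab
        exact Nat.succ_injective hab
      rw [h3]
      refine Finset.sum_le_sum_of_subset_of_nonneg ?_ (fun k _ _ => hc0 k)
      intro k hk
      obtain ⟨j, hj, rfl⟩ := Finset.mem_image.1 hk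
      rw [Finset.mem_Icc] at hj ⊢
      omega
  linarith

end Pool.Agent.Helper8.Rg
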